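import Mathlib
import Pool.Agent.U624.KT.Stm

/-!
# Project KT (helper624), package FIN: the frozen statement S18713 from GAL, INT, THREE
-/

set_option autoImplicit false

namespace Pool.Agent.U723.KT.FIN

open Pool.Agent.U624.KT NumberField

theorem t_FIN (h1 : S_GAL) (h2 : S_INT) (h3 : S_THREE) : S_FIN := by
  obtain ⟨hnf, hdeg, hgal, hexp, htr⟩ := h1
  have := hnf
  have hr2 : IsIntegral ℤ s := (h2 s).2 s_mem
  refine ⟨K, inferInstance, hnf, hdeg, hgal, hexp, htr, ?_⟩
  set R2 : 𝓞 K := ⟨s, hr2⟩ with hR2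
  have hR2c : ((R2 : 𝓞 K) : K) = s := rfl
  refine ⟨![![1, -R2, -R2], ![0, 1, 1], ![0, 0, 1]], ?_, ?_⟩
  · intro φ x hx
    have hs : (φ s) ^ 2 = 2 := by rw [← map_pow, s_sq, map_ofNat]
    have hsum : (∑ i : Fin 3, ∑ j : Fin 3, (if i ≤ j then
        φ (((![![1, -R2, -R2], ![0, 1, 1], ![0, 0, 1]] : Fin 3 → Fin 3 → 𝓞 K) i j : 𝓞 K) : K) *
          x i * x j else 0)) =
        ((φ s * x 0 - x 1 - x 2) ^ 2 + x 1 ^ 2 + x 2 ^ 2) / 2 := by
      simp [Fin.sum_univ_three, hR2c]
      linear_combination (-(x 0) ^ 2 / 2) * hs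
    rw [hsum]
    have hs0 : φ s ≠ 0 := by
      intro h
      rw [h] at hs
      norm_num at hs
    by_contra hneg
    push Not at hneg
    have h1 : (x 1) ^ 2 ≤ 0 := by nlinarith [sq_nonneg (φ s * x 0 - x 1 - x 2), sq_nonneg (x 2)]
    have h2 : (x 2) ^ 2 ≤ 0 := by nlinarith [sq_nonneg (φ s * x 0 - x 1 - x 2), sq_nonneg (x 1)]
    have h1' : x 1 = 0 := by
      have := le_antisymm h1 (sq_nonneg (x 1))
      exact pow_eq_zero_iff (n := 2) (by norm_num) |>.1 this
    have h2' : x 2 = 0 := by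
      have := le_antisymm h2 (sq_nonneg (x 2))
      exact pow_eq_zero_iff (n := 2) (by norm_num) |>.1 this
    rw [h1', h2'] at hneg
    have h3 : (φ s * x 0) ^ 2 ≤ 0 := by nlinarith
    have h4 : φ s * x 0 = 0 := by
      have := le_antisymm h3 (sq_nonneg _)
      exact pow_eq_zero_iff (n := 2) (by norm_num) |>.1 this
    have h0' : x 0 = 0 := (mul_eq_zero.1 h4).resolve_left hs0
    apply hx
    funext i
    fin_cases i
    · exact h0'
    · exact h1'
    · exact h2'
  · intro α hα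
    have hαR : ((α : 𝓞 K) : K) ∈ R := (h2 _).1 (NumberField.RingOfIntegers.isIntegral_coe α)
    obtain ⟨A, hA, B, hB, C, hC, hABC⟩ := h3 _ hαR hα
    have iA : IsIntegral ℤ A := (h2 A).2 hA
    have iB : IsIntegral ℤ B := (h2 B).2 hB
    have iC : IsIntegral ℤ C := (h2 C).2 hC
    have hss := s_sq
    have hx : (s * (A + B + C) / 2) ^ 2 = ((α : 𝓞 K) : K) + A * B + B * C + C * A := by
      field_simp
      linear_combination (A + B + C) ^ 2 * hss + 2 * hABC
    have ix : IsIntegral ℤ (s * (A + B + C) / 2) := by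
      refine IsIntegral.of_pow (n := 2) (by norm_num) ?_
      rw [hx]
      exact (((NumberField.RingOfIntegers.isIntegral_coe α).add (iA.mul iB)).add (iB.mul iC)).add
        (iC.mul iA)
    refine ⟨![⟨_, ix⟩, ⟨B, iB⟩, ⟨C, iC⟩], ?_⟩
    apply NumberField.RingOfIntegers.ext
    simp [Fin.sum_univ_three, hR2c]
    field_simp
    linear_combination ((A + B + C) ^ 2 - 2 * (A + B + C) * (B + C)) * hss + 2 * hABC

end Pool.Agent.U723.KT.FIN
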